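import Pool.Agent.helper84.ZD.SpecA

/-!
# Project zd, module NPM: near pairs
-/

set_option autoImplicit false

open Complex MeasureTheory

namespace Pool.Agent.ZD

open Pool.Agent.helper84.DM Pool.Agent.helper78.ED Pool.Agent.DH

theorem NPM_rho (W : Finset ℝ) (a : ℝ) :
    ((‖rho W a‖ ^ 2 : ℝ) : ℂ) =
      ∑ t ∈ W, ∑ t' ∈ W, Complex.exp ((((t - t') * a : ℝ) : ℂ) * I) := by
  have h : ((‖rho W a‖ ^ 2 : ℝ) : ℂ) = rho W a * (starRingEnd ℂ) (rho W a) := by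
    rw [Complex.mul_conj, Complex.normSq_eq_norm_sq]
  rw [h, rho, map_sum, Finset.sum_mul_sum]
  refine Finset.sum_congr rfl (fun t _ => Finset.sum_congr rfl (fun t' _ => ?_))
  rw [← Complex.exp_conj, ← Complex.exp_add]
  congr 1
  rw [map_mul, Complex.conj_ofReal, Complex.conj_I]
  push_cast
  ring

theorem NPM_kc : Continuous kap := by
  unfold kap
  exact continuous_const.div (by fun_prop) (fun x => by positivity)

theorem NPM_k0 (x : ℝ) : 0 ≤ kap x := by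
  unfold kap
  positivity

theorem NPM_int (h : KAPF_stmt) (κ : ℝ) (hκ : 0 < κ) (c τ : ℝ) :
    Integrable (fun a : ℝ =>
      Complex.exp (((τ * a : ℝ) : ℂ) * I) * ((kap (κ * (a - c)) : ℝ) : ℂ)) ∧
    ∫ a : ℝ, Complex.exp (((τ * a : ℝ) : ℂ) * I) * ((kap (κ * (a - c)) : ℝ) : ℂ) =
      Complex.exp (((τ * c : ℝ) : ℂ) * I) *
        ((Real.pi / κ * Real.exp (-(|τ| / κ)) : ℝ) : ℂ) := by
  obtain ⟨h1, h2⟩ := h κ τ hκ
  constructor
  · refine Integrable.mono' (h1.comp_sub_right c) ?_ ?_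
    · refine Continuous.aestronglyMeasurable ?_
      have hk := NPM_kc
      have hk2 : Continuous (fun a : ℝ => kap (κ * (a - c))) :=
        hk.comp (by fun_prop)
      exact Continuous.mul (by fun_prop) (Complex.continuous_ofReal.comp hk2)
    · refine Filter.Eventually.of_forall (fun a => ?_)
      rw [norm_mul, Complex.norm_exp_ofReal_mul_I, one_mul, Complex.norm_real, Real.norm_eq_abs,
        abs_of_nonneg (NPM_k0 _)]
  · rw [← h2, ← integral_const_mul]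
    rw [← integral_sub_right_eq_self (fun a : ℝ => Complex.exp (((τ * c : ℝ) : ℂ) * I) *
      (Complex.exp (((τ * a : ℝ) : ℂ) * I) * ((kap (κ * a) : ℝ) : ℂ))) c]
    refine integral_congr_ae (Filter.Eventually.of_forall (fun a => ?_))
    show Complex.exp (((τ * a : ℝ) : ℂ) * I) * ((kap (κ * (a - c)) : ℝ) : ℂ) =
      Complex.exp (((τ * c : ℝ) : ℂ) * I) *
      (Complex.exp (((τ * (a - c) : ℝ) : ℂ) * I) * ((kap (κ * (a - c)) : ℝ) : ℂ))
    rw [← mul_assoc, ← Complex.exp_add]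
    congr 2
    push_cast
    ring

theorem NPM_one (h : KAPF_stmt) (W : Finset ℝ) (κ : ℝ) (hκ : 0 < κ) (c : ℝ) :
    ∫ a in (-5 : ℝ)..5, ‖rho W a‖ ^ 2 * kap (κ * (a - c)) ≤
      (∑ t ∈ W, ∑ t' ∈ W, Complex.exp ((((t - t') * c : ℝ) : ℂ) * I) *
        ((Real.pi / κ * Real.exp (-(|t - t'| / κ)) : ℝ) : ℂ)).re := by
  have hF : ∀ a : ℝ, ((‖rho W a‖ ^ 2 * kap (κ * (a - c)) : ℝ) : ℂ) =
      ∑ t ∈ W, ∑ t' ∈ W, Complex.exp ((((t - t') * a : ℝ) : ℂ) * I) *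
        ((kap (κ * (a - c)) : ℝ) : ℂ) := by
    intro a
    rw [Complex.ofReal_mul, NPM_rho, Finset.sum_mul]
    exact Finset.sum_congr rfl (fun t _ => Finset.sum_mul _ _ _)
  have hI : Integrable (fun a : ℝ => ∑ t ∈ W, ∑ t' ∈ W,
      Complex.exp ((((t - t') * a : ℝ) : ℂ) * I) * ((kap (κ * (a - c)) : ℝ) : ℂ)) :=
    integrable_finsetSum _ (fun t _ => integrable_finsetSum _ (fun t' _ =>
      (NPM_int h κ hκ c (t - t')).1))
  have hIC : Integrable (fun a : ℝ => ((‖rho W a‖ ^ 2 * kap (κ * (a - c)) : ℝ) : ℂ)) := by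
    have h2 : (fun a : ℝ => ((‖rho W a‖ ^ 2 * kap (κ * (a - c)) : ℝ) : ℂ)) =
      (fun a : ℝ => ∑ t ∈ W, ∑ t' ∈ W,
      Complex.exp ((((t - t') * a : ℝ) : ℂ) * I) * ((kap (κ * (a - c)) : ℝ) : ℂ)) :=
      funext hF
    rw [h2]
    exact hI
  have hIR : Integrable (fun a : ℝ => ‖rho W a‖ ^ 2 * kap (κ * (a - c))) := by
    have h3 := hIC.re
    exact h3
  have hval : ((∫ a : ℝ, ‖rho W a‖ ^ 2 * kap (κ * (a - c)) : ℝ) : ℂ) =
      ∑ t ∈ W, ∑ t' ∈ W, Complex.exp ((((t - t') * c : ℝ) : ℂ) * I) *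
        ((Real.pi / κ * Real.exp (-(|t - t'| / κ)) : ℝ) : ℂ) := by
    rw [← integral_complex_ofReal]
    rw [integral_congr_ae (Filter.Eventually.of_forall hF)]
    rw [integral_finsetSum _ (fun t _ => integrable_finsetSum _ (fun t' _ =>
      (NPM_int h κ hκ c (t - t')).1))]
    refine Finset.sum_congr rfl (fun t _ => ?_)
    rw [integral_finsetSum _ (fun t' _ => (NPM_int h κ hκ c (t - t')).1)]
    exact Finset.sum_congr rfl (fun t' _ => (NPM_int h κ hκ c (t - t')).2)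
  rw [← hval, Complex.ofReal_re, intervalIntegral.integral_of_le (by norm_num)]
  refine setIntegral_le_integral hIR (Filter.Eventually.of_forall (fun a => ?_))
  exact mul_nonneg (by positivity) (NPM_k0 _)

theorem NPM_PL (A : Finset ℕ) (hA : 0 ∉ A) (u : ℝ) :
    PL A u = ∑ m ∈ A, Complex.exp (((-(u * Real.log m) : ℝ) : ℂ) * I) := by
  unfold PL
  refine Finset.sum_congr rfl (fun m hm => ?_)
  have hm0 : m ≠ 0 := fun h0 => hA (h0 ▸ hm)
  rw [Complex.cpow_def_of_ne_zero (by exact_mod_cast hm0), ← Complex.natCast_log]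
  congr 1
  push_cast
  ring

theorem NPM_prod (A B : Finset ℕ) (hA : 0 ∉ A) (hB : 0 ∉ B) (u : ℝ) :
    ∑ m ∈ A, ∑ m' ∈ B, Complex.exp (((u * (Real.log m' - Real.log m) : ℝ) : ℂ) * I) =
      PL A u * (starRingEnd ℂ) (PL B u) := by
  rw [NPM_PL A hA, NPM_PL B hB, map_sum, Finset.sum_mul_sum]
  refine Finset.sum_congr rfl (fun m _ => Finset.sum_congr rfl (fun m' _ => ?_))
  rw [← Complex.exp_conj, ← Complex.exp_add]
  congr 1
  rw [map_mul, Complex.conj_ofReal, Complex.conj_I]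
  push_cast
  ring

theorem NPM (h : KAPF_stmt) : NPM_stmt := by
  intro W κ A B hκ hA hB
  have h1 : ∑ m ∈ A, ∑ m' ∈ B,
      ∫ a in (-5 : ℝ)..5, ‖rho W a‖ ^ 2 * kap (κ * (a - (Real.log m' - Real.log m))) ≤
      (∑ m ∈ A, ∑ m' ∈ B, ∑ t ∈ W, ∑ t' ∈ W,
        Complex.exp ((((t - t') * (Real.log m' - Real.log m) : ℝ) : ℂ) * I) *
        ((Real.pi / κ * Real.exp (-(|t - t'| / κ)) : ℝ) : ℂ)).re := by
    rw [Complex.re_sum]
    refine Finset.sum_le_sum (fun m _ => ?_)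
    rw [Complex.re_sum]
    exact Finset.sum_le_sum (fun m' _ => NPM_one h W κ hκ _)
  have h2 : (∑ m ∈ A, ∑ m' ∈ B, ∑ t ∈ W, ∑ t' ∈ W,
        Complex.exp ((((t - t') * (Real.log m' - Real.log m) : ℝ) : ℂ) * I) *
        ((Real.pi / κ * Real.exp (-(|t - t'| / κ)) : ℝ) : ℂ)) =
      ∑ t ∈ W, ∑ t' ∈ W, (PL A (t - t') * (starRingEnd ℂ) (PL B (t - t'))) *
        ((Real.pi / κ * Real.exp (-(|t - t'| / κ)) : ℝ) : ℂ) := by
    calc (∑ m ∈ A, ∑ m' ∈ B, ∑ t ∈ W, ∑ t' ∈ W,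
        Complex.exp ((((t - t') * (Real.log m' - Real.log m) : ℝ) : ℂ) * I) *
        ((Real.pi / κ * Real.exp (-(|t - t'| / κ)) : ℝ) : ℂ))
        = ∑ m ∈ A, ∑ t ∈ W, ∑ m' ∈ B, ∑ t' ∈ W,
        Complex.exp ((((t - t') * (Real.log m' - Real.log m) : ℝ) : ℂ) * I) *
        ((Real.pi / κ * Real.exp (-(|t - t'| / κ)) : ℝ) : ℂ) :=
          Finset.sum_congr rfl (fun m _ => Finset.sum_comm)
      _ = ∑ t ∈ W, ∑ m ∈ A, ∑ m' ∈ B, ∑ t' ∈ W,
        Complex.exp ((((t - t') * (Real.log m' - Real.log m) : ℝ) : ℂ) * I) *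
        ((Real.pi / κ * Real.exp (-(|t - t'| / κ)) : ℝ) : ℂ) := Finset.sum_comm
      _ = ∑ t ∈ W, ∑ m ∈ A, ∑ t' ∈ W, ∑ m' ∈ B,
        Complex.exp ((((t - t') * (Real.log m' - Real.log m) : ℝ) : ℂ) * I) *
        ((Real.pi / κ * Real.exp (-(|t - t'| / κ)) : ℝ) : ℂ) :=
          Finset.sum_congr rfl (fun t _ => Finset.sum_congr rfl (fun m _ => Finset.sum_comm))
      _ = ∑ t ∈ W, ∑ t' ∈ W, ∑ m ∈ A, ∑ m' ∈ B,
        Complex.exp ((((t - t') * (Real.log m' - Real.log m) : ℝ) : ℂ) * I) *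
        ((Real.pi / κ * Real.exp (-(|t - t'| / κ)) : ℝ) : ℂ) :=
          Finset.sum_congr rfl (fun t _ => Finset.sum_comm)
      _ = _ := by
          refine Finset.sum_congr rfl (fun t _ => Finset.sum_congr rfl (fun t' _ => ?_))
          rw [← NPM_prod A B hA hB, Finset.sum_mul]
          exact Finset.sum_congr rfl (fun m _ => (Finset.sum_mul _ _ _).symm)
  rw [h2] at h1
  refine h1.trans ?_
  rw [Complex.re_sum, Finset.mul_sum]
  refine Finset.sum_le_sum (fun t _ => ?_)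
  rw [Complex.re_sum, Finset.mul_sum]
  refine Finset.sum_le_sum (fun t' _ => ?_)
  refine (Complex.re_le_norm _).trans ?_
  rw [norm_mul, norm_mul, RCLike.norm_conj, Complex.norm_real, Real.norm_eq_abs]
  have hp : 0 < Real.pi / κ := div_pos Real.pi_pos hκ
  have he : Real.exp (-(|t - t'| / κ)) ≤ 1 := by
    rw [Real.exp_le_one_iff]
    have : 0 ≤ |t - t'| / κ := by positivity
    linarith
  rw [abs_of_nonneg (mul_nonneg hp.le (Real.exp_pos _).le)]
  have h3 : 0 ≤ ‖PL A (t - t')‖ * ‖PL B (t - t')‖ := by positivity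
  calc ‖PL A (t - t')‖ * ‖PL B (t - t')‖ * (Real.pi / κ * Real.exp (-(|t - t'| / κ)))
      ≤ ‖PL A (t - t')‖ * ‖PL B (t - t')‖ * (Real.pi / κ * 1) := by
        refine mul_le_mul_of_nonneg_left ?_ h3
        exact mul_le_mul_of_nonneg_left he hp.le
    _ = Real.pi / κ * (‖PL A (t - t')‖ * ‖PL B (t - t')‖) := by ring

end Pool.Agent.ZD
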